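import Pool.Agent.Helper85_Idx.Stmts

/-!
# FTW and FVAL: forests
-/

set_option autoImplicit false

namespace Pool.Agent.Idx.H90

/-- the payload mark of a segment -/
def pmk {V T : Type} : Seg V T → Option (V × Bool)
  | Seg.pay e b => some (e, b)
  | Seg.con _ => none

/-- both marks -/
def dbl {V : Type} (e : V) : List (V × Bool) := [(e, false), (e, true)]

theorem pm_tsegs {V T : Type} (z z' : T) (t : BT V) :
    ((tsegs z z' t).filterMap pmk).Perm ((edges t).flatMap dbl) := by
  induction t with
  | leaf e m =>
    have h1 : (tsegs z z' (BT.leaf e m)).filterMap pmk = [(e, false), (e, true)] := rfl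
    rw [h1]
    simp [edges, dbl]
  | node e l r ihl ihr =>
    have h1 : (tsegs z z' (BT.node e l r)).filterMap pmk =
        (e, false) :: ((tsegs z z' l).filterMap pmk ++ ((tsegs z z' r).filterMap pmk ++
          [(e, true)])) := by
      simp [tsegs, pmk, List.filterMap_append]
    have h2 : (edges (BT.node e l r)).flatMap dbl =
        (e, false) :: (e, true) :: ((edges l).flatMap dbl ++ (edges r).flatMap dbl) := by
      simp [edges, dbl, List.flatMap_append]
    rw [h1, h2]
    apply List.Perm.cons
    rw [← List.append_assoc]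
    refine (List.perm_append_singleton _ _).trans ?_
    exact List.Perm.cons _ (ihl.append ihr)

theorem pm_fsegs {V T : Type} (z z' : T) (ts : List (BT V)) :
    ((fsegs z z' ts).filterMap pmk).Perm (((ts.map edges).flatten).flatMap dbl) := by
  induction ts with
  | nil => simp [fsegs]
  | cons t ts ih =>
    have h1 : fsegs z z' (t :: ts) = tsegs z z' t ++ fsegs z z' ts := by simp [fsegs]
    rw [h1, List.filterMap_append, List.map_cons, List.flatten_cons, List.flatMap_append]
    exact (pm_tsegs z z' t).append ih

theorem twice_of {V : Type} (S : Setup) (segs : List (Seg V S.T)) (E : List V)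
    (hE : E.Nodup) (hp : (segs.filterMap pmk).Perm (E.flatMap dbl)) : Twice S segs := by
  have hnd : (segs.filterMap pmk).Nodup := by
    rw [hp.nodup_iff, List.nodup_flatMap]
    refine ⟨fun x _ => by simp [dbl], ?_⟩
    refine List.Pairwise.imp ?_ hE
    intro a b hab x hx hx'
    simp only [dbl, List.mem_cons, List.not_mem_nil, or_false] at hx hx'
    rcases hx with rfl | rfl <;> rcases hx' with h | h <;>
      exact hab (congrArg Prod.fst h)
  have key : ∀ (i i' : ℕ) (e : V) (b : Bool), segs[i]? = some (Seg.pay e b) →
      segs[i']? = some (Seg.pay e b) → ¬ i < i' := by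
    intro i i' e b h h' hlt
    have hs : segs = segs.take (i + 1) ++ segs.drop (i + 1) := (List.take_append_drop _ _).symm
    have m1 : Seg.pay e b ∈ segs.take (i + 1) := by
      rw [List.mem_iff_getElem?]
      exact ⟨i, by rw [List.getElem?_take_of_lt (by omega)]; exact h⟩
    have m2 : Seg.pay e b ∈ segs.drop (i + 1) := by
      rw [List.mem_iff_getElem?]
      refine ⟨i' - (i + 1), ?_⟩
      rw [List.getElem?_drop]
      have : i + 1 + (i' - (i + 1)) = i' := by omega
      rw [this]
      exact h'
    rw [hs, List.filterMap_append] at hnd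
    have hd := List.disjoint_of_nodup_append hnd
    exact hd (List.mem_filterMap.mpr ⟨_, m1, rfl⟩) (List.mem_filterMap.mpr ⟨_, m2, rfl⟩)
  constructor
  · intro i i' e b h h'
    rcases lt_trichotomy i i' with hl | hl | hl
    · exact absurd hl (key i i' e b h h')
    · exact hl
    · exact absurd hl (key i' i e b h' h)
  · intro i e b h
    have m1 : (e, b) ∈ segs.filterMap pmk :=
      List.mem_filterMap.mpr ⟨Seg.pay e b, List.mem_iff_getElem?.mpr ⟨i, h⟩, rfl⟩
    have m2 : (e, !b) ∈ segs.filterMap pmk := by
      rw [hp.mem_iff, List.mem_flatMap] at m1 ⊢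
      obtain ⟨x, hx, hm⟩ := m1
      refine ⟨x, hx, ?_⟩
      simp only [dbl, List.mem_cons, List.not_mem_nil, or_false, Prod.mk.injEq] at hm ⊢
      cases b <;> simp_all
    obtain ⟨y, hy, hy'⟩ := List.mem_filterMap.mp m2
    cases y with
    | con u => simp [pmk] at hy'
    | pay e' b' =>
      simp only [pmk, Option.some.injEq, Prod.mk.injEq] at hy'
      obtain ⟨rfl, rfl⟩ := hy'
      exact List.mem_iff_getElem?.mp hy

theorem ftw : FtwStmt := by
  intro S V ts hnd
  exact twice_of S.toSetup _ _ hnd (pm_fsegs S.z S.z' ts)

/-! ### values -/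

theorem val_append {T G : Type} [Group G] (ev : T → G) (u w : List T) :
    val ev (u ++ w) = val ev u * val ev w := by
  simp [val]

theorem word_append {V : Type} (S : Setup) {m : ℕ} (h : V → Fin m → Bool)
    (s s' : List (Seg V S.T)) : word S h (s ++ s') = word S h s ++ word S h s' := by
  simp [word]

theorem word_cons {V : Type} (S : Setup) {m : ℕ} (h : V → Fin m → Bool)
    (s : Seg V S.T) (s' : List (Seg V S.T)) : word S h (s :: s') = segw S h s ++ word S h s' := by
  simp [word]

theorem val_zw (S : ZSetup) (x : ℤ) : val S.ev (zw S.z S.z' x) = S.ev S.z ^ x := by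
  unfold zw val
  rw [List.map_replicate, List.prod_replicate]
  split
  · rename_i hx
    rw [← zpow_natCast, Int.natAbs_of_nonneg hx]
  · rename_i hx
    rw [S.zinv, inv_pow, ← zpow_natCast, ← zpow_neg]
    congr 1
    omega

theorem val_pay_inv (S : Setup) {V : Type} {m : ℕ} (h : V → Fin m → Bool) (e : V) :
    val S.ev (segw S h (Seg.pay e true : Seg V S.T)) =
      (val S.ev (segw S h (Seg.pay e false : Seg V S.T)))⁻¹ := by
  have key : ∀ L : List Bool, (((L.map S.ni).reverse).map S.ev).prod =
      (((L.map S.pl).map S.ev).prod)⁻¹ := by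
    intro L
    induction L with
    | nil => simp
    | cons x L ih =>
      simp only [List.map_cons, List.reverse_cons, List.map_append, List.prod_append,
        List.map_nil, List.prod_cons, List.prod_nil, mul_one, mul_inv_rev]
      rw [ih, S.inv]
  exact key (List.ofFn (h e))

theorem comm_pay (S : ZSetup) {V : Type} {m : ℕ} (h : V → Fin m → Bool) (e : V) :
    Commute (S.ev S.z) (val S.ev (segw S.toSetup h (Seg.pay e false : Seg V S.T))) := by
  have key : ∀ L : List Bool, Commute (S.ev S.z) ((L.map S.pl).map S.ev).prod := by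
    intro L
    induction L with
    | nil => simp
    | cons x L ih =>
      simp only [List.map_cons, List.prod_cons]
      exact (S.comm x).mul_right ih
  exact key (List.ofFn (h e))

theorem val_tree (S : ZSetup) {V : Type} (t : BT V) {m : ℕ} (h : V → Fin m → Bool) :
    val S.ev (word S.toSetup h (tsegs S.z S.z' t)) = S.ev S.z ^ (wt t) := by
  induction t with
  | leaf e x =>
    simp only [tsegs, word_cons]
    rw [val_append, val_append, val_append, val_pay_inv]
    have h1 : val S.ev (word S.toSetup h ([] : List (Seg V S.T))) = 1 := by simp [word, val]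
    rw [h1, mul_one]
    have h2 : val S.ev (segw S.toSetup h (Seg.con (zw S.z S.z' x) : Seg V S.T)) =
        S.ev S.z ^ x := val_zw S x
    rw [h2]
    have h3 := (comm_pay S h e).zpow_left x
    have h4 : wt (BT.leaf e x) = x := by simp [wt, leaves]
    rw [h4, ← mul_assoc, ← h3.eq, mul_assoc, mul_inv_cancel, mul_one]
  | node e l r ihl ihr =>
    simp only [tsegs, word_cons, word_append]
    rw [val_append, val_append, val_append, val_append, val_pay_inv, ihl, ihr]
    have h1 : val S.ev (word S.toSetup h ([] : List (Seg V S.T))) = 1 := by simp [word, val]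
    rw [h1, mul_one, ← zpow_add]
    have h3 := (comm_pay S h e).zpow_left (wt l + wt r)
    have h4 : wt (BT.node e l r) = wt l + wt r := by simp [wt, leaves]
    rw [h4, ← mul_assoc, ← h3.eq, mul_assoc, mul_inv_cancel, mul_one]

theorem fval : FvalStmt := by
  intro S V ts m h
  induction ts with
  | nil => simp [fsegs, word, val]
  | cons t ts ih =>
    have h1 : fsegs S.z S.z' (t :: ts) = tsegs S.z S.z' t ++ fsegs S.z S.z' ts := by simp [fsegs]
    rw [h1, word_append, val_append, ih, val_tree, List.map_cons, List.sum_cons, zpow_add]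

end Pool.Agent.Idx.H90
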