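import Pool.Agent.Helper85_Idx.Stmts

/-!
# COMP: dyadic and triadic sums with few terms do not approach each other
-/

set_option autoImplicit false

namespace Pool.Agent.Idx.H90

open Filter Topology Pointwise

/-- closure of the powers of `q` -/
def Kq (q : ℝ) : Set ℝ := insert 0 (Set.range (fun n : ℕ => q ^ n))

theorem Kq_compact {q : ℝ} (h0 : 0 ≤ q) (h1 : q < 1) : IsCompact (Kq q) :=
  (tendsto_pow_atTop_nhds_zero_of_lt_one h0 h1).isCompact_insert_range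

/-- sums of `0` or `1` and `n` elements of `K` -/
def SS (K : Set ℝ) : ℕ → Set ℝ
  | 0 => {0, 1}
  | n + 1 => SS K n + K

theorem SS_compact {K : Set ℝ} (hK : IsCompact K) (n : ℕ) : IsCompact (SS K n) := by
  induction n with
  | zero =>
    have : (({0, 1} : Set ℝ)).Finite := Set.toFinite _
    exact this.isCompact
  | succ n ih => exact ih.add hK

theorem SS_mem {K : Set ℝ} (h0 : (0 : ℝ) ∈ K) {a : ℝ} (ha : a = 0 ∨ a = 1) :
    ∀ (n : ℕ) (L : List ℝ), L.length ≤ n → (∀ x ∈ L, x ∈ K) → a + L.sum ∈ SS K n := by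
  intro n
  induction n with
  | zero =>
    intro L hL _
    have : L = [] := List.length_eq_zero_iff.mp (by omega)
    subst this
    simpa [SS] using ha
  | succ n ih =>
    intro L hL hx
    cases L with
    | nil =>
      have := ih [] (by simp) (by simp)
      exact Set.mem_add.mpr ⟨_, this, 0, h0, by simp⟩
    | cons y L =>
      have := ih L (by simpa using hL) (fun x hx' => hx x (List.mem_cons_of_mem _ hx'))
      refine Set.mem_add.mpr ⟨_, this, y, hx y List.mem_cons_self, ?_⟩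
      simp only [List.sum_cons]
      ring

/-- elements of `ℤ[1/p]` -/
def Zp (p : ℕ) (x : ℝ) : Prop := ∃ (m : ℤ) (k : ℕ), x * (p : ℝ) ^ k = m

theorem Zp_add {p : ℕ} {x y : ℝ} (hx : Zp p x) (hy : Zp p y) : Zp p (x + y) := by
  obtain ⟨m, k, h⟩ := hx
  obtain ⟨n, l, h'⟩ := hy
  refine ⟨m * (p : ℤ) ^ l + n * (p : ℤ) ^ k, k + l, ?_⟩
  push_cast
  rw [← h, ← h', pow_add]
  ring

theorem Zp_mul {p : ℕ} {x y : ℝ} (hx : Zp p x) (hy : Zp p y) : Zp p (x * y) := by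
  obtain ⟨m, k, h⟩ := hx
  obtain ⟨n, l, h'⟩ := hy
  refine ⟨m * n, k + l, ?_⟩
  push_cast
  rw [← h, ← h', pow_add]
  ring

theorem Zp_neg {p : ℕ} {x : ℝ} (hx : Zp p x) : Zp p (-x) := by
  obtain ⟨m, k, h⟩ := hx
  refine ⟨-m, k, ?_⟩
  push_cast
  rw [← h]
  ring

theorem Zp_int {p : ℕ} (m : ℤ) : Zp p (m : ℝ) := ⟨m, 0, by simp⟩

theorem Zp_pow {p : ℕ} {x : ℝ} (hx : Zp p x) (n : ℕ) : Zp p (x ^ n) := by
  induction n with
  | zero => simpa using Zp_int (p := p) 1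
  | succ n ih => rw [pow_succ]; exact Zp_mul ih hx

theorem Zp_Kq {p : ℕ} {q : ℝ} (hq : Zp p q) {x : ℝ} (hx : x ∈ Kq q) : Zp p x := by
  rcases hx with h | ⟨n, rfl⟩
  · rw [h]
    simpa using Zp_int (p := p) 0
  · exact Zp_pow hq n

theorem Zp_SS {p : ℕ} {K : Set ℝ} (hK : ∀ x ∈ K, Zp p x) (n : ℕ) : ∀ x ∈ SS K n, Zp p x := by
  induction n with
  | zero =>
    intro x hx
    rcases hx with h | h
    · rw [h]
      simpa using Zp_int (p := p) 0
    · rw [Set.mem_singleton_iff] at h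
      rw [h]
      simpa using Zp_int (p := p) 1
  | succ n ih =>
    intro x hx
    obtain ⟨a, ha, b, hb, rfl⟩ := Set.mem_add.mp hx
    exact Zp_add (ih a ha) (hK b hb)

theorem Zp_inter {x : ℝ} (h2 : Zp 2 x) (h3 : Zp 3 x) : ∃ m : ℤ, x = m := by
  obtain ⟨m, k, h⟩ := h2
  obtain ⟨n, l, h'⟩ := h3
  push_cast at h h'
  have e : m * 3 ^ l = n * 2 ^ k := by
    have : (m : ℝ) * 3 ^ l = n * 2 ^ k := by
      rw [← h, ← h']; ring
    exact_mod_cast this
  have hd : (2 : ℤ) ^ k ∣ m * 3 ^ l := ⟨n, by rw [e]; ring⟩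
  have hc : IsCoprime ((2 : ℤ) ^ k) (3 ^ l) := by
    apply IsCoprime.pow
    exact ⟨-1, 1, by norm_num⟩
  obtain ⟨q, hq⟩ := hc.dvd_of_dvd_mul_right hd
  refine ⟨q, ?_⟩
  have h2k : (2 : ℝ) ^ k ≠ 0 := by positivity
  have : x * 2 ^ k = q * 2 ^ k := by
    rw [h, hq]; push_cast; ring
  exact mul_right_cancel₀ h2k this

/-- dyadic terms -/
def K2 : Set ℝ := Kq (1 / 2) ∪ -Kq (1 / 2)

/-- triadic terms -/
def K3 : Set ℝ := (Kq (2 / 3) * Kq (1 / 3)) ∪ -(Kq (2 / 3) * Kq (1 / 3))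

theorem K2_compact : IsCompact K2 :=
  (Kq_compact (by norm_num) (by norm_num)).union (Kq_compact (by norm_num) (by norm_num)).neg

theorem K3_compact : IsCompact K3 := by
  have h : IsCompact (Kq (2 / 3) * Kq (1 / 3)) :=
    (Kq_compact (by norm_num) (by norm_num)).mul (Kq_compact (by norm_num) (by norm_num))
  exact h.union h.neg

theorem K2_Zp : ∀ x ∈ K2, Zp 2 x := by
  intro x hx
  have hh : Zp 2 (1 / 2 : ℝ) := ⟨1, 1, by norm_num⟩
  rcases hx with h | h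
  · exact Zp_Kq hh h
  · have := Zp_neg (Zp_Kq hh (Set.mem_neg.mp h))
    simpa using this

theorem K3_Zp : ∀ x ∈ K3, Zp 3 x := by
  intro x hx
  have h1 : Zp 3 (2 / 3 : ℝ) := ⟨2, 1, by norm_num⟩
  have h2 : Zp 3 (1 / 3 : ℝ) := ⟨1, 1, by norm_num⟩
  rcases hx with h | h
  · obtain ⟨a, ha, b, hb, rfl⟩ := Set.mem_mul.mp h
    exact Zp_mul (Zp_Kq h1 ha) (Zp_Kq h2 hb)
  · obtain ⟨a, ha, b, hb, e⟩ := Set.mem_mul.mp (Set.mem_neg.mp h)
    have := Zp_neg (Zp_mul (Zp_Kq h1 ha) (Zp_Kq h2 hb))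
    rw [e] at this
    simpa using this

theorem comp : CompStmt := by
  intro c R hR
  have hdis : Disjoint (SS K2 c ∩ Set.Icc (1 / (4 * (R : ℝ))) (3 / 4)) (SS K3 c) := by
    rw [Set.disjoint_left]
    intro x hx hx3
    obtain ⟨m, hm⟩ := Zp_inter (Zp_SS K2_Zp c x hx.1) (Zp_SS K3_Zp c x hx3)
    have hR' : (0 : ℝ) < R := by exact_mod_cast hR
    have h1 : (0 : ℝ) < 1 / (4 * (R : ℝ)) := by positivity
    have h2 := hx.2.1
    have h3 := hx.2.2
    have h4 : (0 : ℝ) < m := by rw [← hm]; linarith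
    have h5 : (m : ℝ) < 1 := by rw [← hm]; linarith
    have h6 : (0 : ℤ) < m := by exact_mod_cast h4
    have h7 : m < (1 : ℤ) := by exact_mod_cast h5
    omega
  obtain ⟨δ, hδ, hth⟩ := hdis.exists_thickenings
    ((SS_compact K2_compact c).inter_right isClosed_Icc) (SS_compact K3_compact c).isClosed
  refine ⟨δ, hδ, ?_⟩
  intro a b P Q ha hb hP hQ hP1 hQ1 hlo hhi
  by_contra hlt
  push Not at hlt
  have hz2 : (0 : ℝ) ∈ K2 := Or.inl (Or.inl rfl)
  have hz3 : (0 : ℝ) ∈ K3 := Or.inl (Set.mem_mul.mpr ⟨0, Or.inl rfl, 0, Or.inl rfl, by simp⟩)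
  have ha' : (a : ℝ) = 0 ∨ (a : ℝ) = 1 := by
    rcases ha with h | h <;> simp [h]
  have hb' : (b : ℝ) = 0 ∨ (b : ℝ) = 1 := by
    rcases hb with h | h <;> simp [h]
  have m2 : (a : ℝ) + (P.map (fun x => (x.1 : ℝ) / 2 ^ x.2)).sum ∈ SS K2 c := by
    apply SS_mem hz2 ha' c _ (by simpa using hP)
    intro y hy
    obtain ⟨x, hx, rfl⟩ := List.mem_map.mp hy
    have e : ((1 : ℝ) / 2) ^ x.2 = 1 / 2 ^ x.2 := by rw [div_pow, one_pow]
    rcases hP1 x hx with h | h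
    · left; right
      refine ⟨x.2, ?_⟩
      simp only [h]
      rw [e]
      simp
    · right
      rw [Set.mem_neg]
      right
      refine ⟨x.2, ?_⟩
      simp only [h]
      rw [e]
      push_cast
      ring
  have m3 : (b : ℝ) + (Q.map (fun x => (x.1 : ℝ) * 2 ^ x.2.1 / 3 ^ x.2.2)).sum ∈ SS K3 c := by
    apply SS_mem hz3 hb' c _ (by simpa using hQ)
    intro y hy
    obtain ⟨x, hx, rfl⟩ := List.mem_map.mp hy
    obtain ⟨h1, hr⟩ := hQ1 x hx
    have e : ((2 : ℝ) / 3) ^ x.2.1 * ((1 : ℝ) / 3) ^ (x.2.2 - x.2.1) = 2 ^ x.2.1 / 3 ^ x.2.2 := by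
      rw [div_pow, div_pow, one_pow, div_mul_div_comm, mul_one, ← pow_add]
      congr 2
      omega
    have mm : (2 : ℝ) ^ x.2.1 / 3 ^ x.2.2 ∈ Kq (2 / 3) * Kq (1 / 3) := by
      rw [← e]
      exact Set.mul_mem_mul (Or.inr ⟨_, rfl⟩) (Or.inr ⟨_, rfl⟩)
    rcases h1 with h | h
    · left
      simp only [h]
      push_cast
      rw [one_mul]
      exact mm
    · right
      rw [Set.mem_neg]
      simp only [h]
      push_cast
      convert mm using 1
      ring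
  have hx2 : (a : ℝ) + (P.map (fun x => (x.1 : ℝ) / 2 ^ x.2)).sum ∈
      SS K2 c ∩ Set.Icc (1 / (4 * (R : ℝ))) (3 / 4) := ⟨m2, hlo, hhi⟩
  have t2 := Metric.self_subset_thickening hδ _ hx2
  have t3 : (a : ℝ) + (P.map (fun x => (x.1 : ℝ) / 2 ^ x.2)).sum ∈
      Metric.thickening δ (SS K3 c) := by
    rw [Metric.mem_thickening_iff]
    exact ⟨_, m3, by rw [Real.dist_eq]; exact hlt⟩
  exact Set.disjoint_left.mp hth t2 t3

end Pool.Agent.Idx.H90
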