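import Pool.Agent.Helper85_Idx.Stmts

/-!
# MCON: few changes and no mismatch: almost constant on the first half
-/

set_option autoImplicit false

namespace Pool.Agent.Idx.H90

open Finset

theorem flatMap_get {α β : Type} (f : α → List β) (k : ℕ) :
    ∀ (l : List α), (∀ x ∈ l, (f x).length = k) → ∀ (i q : ℕ), q < k → ∀ x, l[i]? = some x →
      (l.flatMap f)[k * i + q]? = (f x)[q]? := by
  intro l
  induction l with
  | nil => intro _ i q _ x hx; simp at hx
  | cons y l ih =>
    intro hl i q hq x hx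
    have hy : (f y).length = k := hl y List.mem_cons_self
    rw [List.flatMap_cons]
    cases i with
    | zero =>
      simp only [List.getElem?_cons_zero, Option.some.injEq] at hx
      subst hx
      rw [Nat.mul_zero, Nat.zero_add, List.getElem?_append_left (by omega)]
    | succ i =>
      simp only [List.getElem?_cons_succ] at hx
      rw [List.getElem?_append_right (by rw [hy, Nat.mul_succ]; omega)]
      have e : k * (i + 1) + q - (f y).length = k * i + q := by
        rw [hy, Nat.mul_succ]; omega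
      rw [e]
      exact ih (fun z hz => hl z (List.mem_cons_of_mem _ hz)) i q hq x hx

theorem flatMap_len {α β : Type} (f : α → List β) (k : ℕ) (l : List α)
    (hl : ∀ x ∈ l, (f x).length = k) : (l.flatMap f).length = k * l.length := by
  induction l with
  | nil => simp
  | cons y l ih =>
    rw [List.flatMap_cons, List.length_append, ih (fun z hz => hl z (List.mem_cons_of_mem _ hz)),
      hl y List.mem_cons_self, List.length_cons, Nat.mul_succ, Nat.add_comm]

variable (S : Setup)

theorem mrow_len (m₀ m : ℕ) : (mrow S m₀ m).length = 2 * m₀ * m₀ := by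
  rw [mrow, flatMap_len _ (2 * m₀) _ ?_]
  · simp
  · intro i _
    rw [flatMap_len _ 2 _ ?_]
    · simp
    · intro j _
      rfl

theorem mcol_len (m₀ m : ℕ) : (mcol S m₀ m).length = 2 * m₀ * m₀ := by
  rw [mcol, flatMap_len _ (2 * m₀) _ ?_]
  · simp
  · intro i _
    rw [flatMap_len _ 2 _ ?_]
    · simp
    · intro j _
      rfl

theorem mseg_len (m₀ m : ℕ) : (mseg S m₀ m).length = 4 * m₀ * m₀ := by
  rw [mseg, List.length_append, mrow_len, mcol_len]
  ring

theorem mrow_get (m₀ m : ℕ) (i j : Fin m₀) :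
    (mrow S m₀ m)[2 * m₀ * i + 2 * j]? = some (Seg.pay (i, j) false) := by
  have hj : 2 * (j : ℕ) < 2 * m₀ := by have := j.2; omega
  rw [mrow, flatMap_get _ (2 * m₀) _ ?_ i (2 * j) hj i (by simp)]
  · have := flatMap_get (fun j : Fin m₀ => ([Seg.pay (i, j) false,
        Seg.con (List.replicate m (S.ni true))] : List (Seg (Fin m₀ × Fin m₀) S.T))) 2
      (List.finRange m₀) (by intro x _; rfl) j 0 (by norm_num) j (by simp)
    rw [Nat.add_zero] at this
    rw [this]
    rfl
  · intro i _
    rw [flatMap_len _ 2 _ ?_]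
    · simp
    · intro j _
      rfl

theorem rev_get (n : ℕ) (j : Fin n) :
    (List.finRange n).reverse[n - 1 - (j : ℕ)]? = some j := by
  have hj := j.2
  rw [List.getElem?_reverse (by simp; omega)]
  have : (List.finRange n).length - 1 - (n - 1 - (j : ℕ)) = j := by
    rw [List.length_finRange]; omega
  rw [this]
  simp

theorem mcol_get (m₀ m : ℕ) (i j : Fin m₀) :
    (mcol S m₀ m)[2 * m₀ * (m₀ - 1 - (j : ℕ)) + (2 * (m₀ - 1 - (i : ℕ)) + 1)]? =
      some (Seg.pay (i, j) true) := by
  have hi : 2 * (m₀ - 1 - (i : ℕ)) + 1 < 2 * m₀ := by have := i.2; omega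
  rw [mcol, flatMap_get _ (2 * m₀) _ ?_ (m₀ - 1 - (j : ℕ)) _ hi j (rev_get m₀ j)]
  · have := flatMap_get (fun i : Fin m₀ => ([Seg.con (List.replicate m (S.pl true)),
        Seg.pay (i, j) true] : List (Seg (Fin m₀ × Fin m₀) S.T))) 2
      (List.finRange m₀).reverse (by intro x _; rfl) (m₀ - 1 - (i : ℕ)) 1 (by norm_num) i
      (rev_get m₀ i)
    rw [this]
    rfl
  · intro i _
    rw [flatMap_len _ 2 _ ?_]
    · simp
    · intro j _
      rfl

theorem mseg_slen (m₀ m : ℕ) : ∀ x ∈ mseg S m₀ m, slen S m x = m := by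
  intro x hx
  rw [mseg, List.mem_append] at hx
  rcases hx with hx | hx
  · simp only [mrow, List.mem_flatMap] at hx
    obtain ⟨i, _, j, _, hx⟩ := hx
    simp only [List.mem_cons, List.not_mem_nil, or_false] at hx
    rcases hx with rfl | rfl <;> simp [slen]
  · simp only [mcol, List.mem_flatMap] at hx
    obtain ⟨i, _, j, _, hx⟩ := hx
    simp only [List.mem_cons, List.not_mem_nil, or_false] at hx
    rcases hx with rfl | rfl <;> simp [slen]

theorem mseg_start (m₀ m i : ℕ) (hi : i ≤ 4 * m₀ * m₀) :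
    start S m (mseg S m₀ m) i = i * m := by
  have : ((mseg S m₀ m).take i).map (slen S m) = List.replicate i m := by
    rw [List.eq_replicate_iff]
    refine ⟨by rw [List.length_map, List.length_take, mseg_len]; omega, ?_⟩
    intro b hb
    obtain ⟨x, hx, rfl⟩ := List.mem_map.mp hb
    exact mseg_slen S m₀ m x (List.mem_of_mem_take hx)
  rw [start, this]
  simp

/-- sum over blocks -/
theorem sum_blocks (g : ℕ → ℝ) (a n : ℕ) :
    ∑ j ∈ range (a * n), g j = ∑ r ∈ range n, ∑ q ∈ range a, g (a * r + q) := by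
  induction n with
  | zero => simp
  | succ n ih => rw [Nat.mul_succ, Finset.sum_range_add, ih, Finset.sum_range_succ]

theorem mmu_nonneg (m₀ m j : ℕ) : 0 ≤ mmu m₀ m j := by
  unfold mmu
  split
  · positivity
  · exact le_rfl

/-- the measure of a row -/
theorem row_measure (m₀ m : ℕ) (hm : 1 ≤ m) (r : ℕ) (hr : r < m₀) :
    ∑ q ∈ range (2 * m * m₀), mmu m₀ m (2 * m * m₀ * r + q) = 1 / (m₀ : ℝ) := by
  rw [sum_blocks]
  have h1 : ∀ c ∈ range m₀, ∑ x ∈ range (2 * m), mmu m₀ m (2 * m * m₀ * r + (2 * m * c + x)) =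
      1 / (m₀ : ℝ) ^ 2 := by
    intro c hc
    have hc' := Finset.mem_range.mp hc
    have h2 : ∀ x ∈ range (2 * m), mmu m₀ m (2 * m * m₀ * r + (2 * m * c + x)) =
        if x < m then 1 / ((m₀ : ℝ) ^ 2 * m) else 0 := by
      intro x hx
      have hx' := Finset.mem_range.mp hx
      have e : 2 * m * m₀ * r + (2 * m * c + x) = 2 * m * (m₀ * r + c) + x := by ring
      have e2 : (2 * m * m₀ * r + (2 * m * c + x)) % (2 * m) = x := by
        rw [e, Nat.mul_add_mod]
        exact Nat.mod_eq_of_lt hx'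
      have e3 : 2 * m * m₀ * r + (2 * m * c + x) < 2 * m * m₀ ^ 2 := by
        rw [e]
        have h3 : m₀ * r + c + 1 ≤ m₀ ^ 2 := by nlinarith
        calc 2 * m * (m₀ * r + c) + x < 2 * m * (m₀ * r + c) + 2 * m := by omega
          _ = 2 * m * (m₀ * r + c + 1) := by ring
          _ ≤ 2 * m * m₀ ^ 2 := Nat.mul_le_mul_left _ h3
      unfold mmu
      rw [e2]
      simp only [e3, true_and]
    rw [Finset.sum_congr rfl h2, two_mul, Finset.sum_range_add]
    have h3 : ∑ x ∈ range m, (if x < m then 1 / ((m₀ : ℝ) ^ 2 * m) else 0) =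
        ∑ x ∈ range m, 1 / ((m₀ : ℝ) ^ 2 * m) := by
      apply Finset.sum_congr rfl
      intro x hx
      rw [if_pos (Finset.mem_range.mp hx)]
    have h4 : ∑ x ∈ range m, (if m + x < m then 1 / ((m₀ : ℝ) ^ 2 * m) else 0) = 0 := by
      apply Finset.sum_eq_zero
      intro x _
      rw [if_neg (by omega)]
    rw [h3, h4, Finset.sum_const, Finset.card_range, nsmul_eq_mul, add_zero]
    have hm' : (m : ℝ) ≠ 0 := by positivity
    have hm0 : (m₀ : ℝ) ≠ 0 := by
      have : 0 < m₀ := by omega
      positivity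
    field_simp
  rw [Finset.sum_congr rfl h1, Finset.sum_const, Finset.card_range, nsmul_eq_mul]
  have hm0 : (m₀ : ℝ) ≠ 0 := by
    have : 0 < m₀ := by omega
    positivity
  field_simp

/-- clean intervals -/
def Cl (χ : ℕ → Bool) (a ρ : ℕ) : Prop := ∀ q, q < a → χ (a * ρ + q) = χ (a * ρ)

theorem clean_of (χ : ℕ → Bool) (a ρ : ℕ)
    (h : ∀ q, q + 1 < a → χ (a * ρ + q) = χ (a * ρ + q + 1)) : Cl χ a ρ := by
  intro q
  induction q with
  | zero => intro _; rfl
  | succ q ih =>
    intro hq
    rw [← Nat.add_assoc, ← h q hq]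
    exact ih (by omega)

open Classical in
theorem unclean_card (χ : ℕ → Bool) (a n : ℕ) :
    ((range n).filter (fun ρ => ¬ Cl χ a ρ)).card ≤ chg χ (a * n) := by
  have : (range n).filter (fun ρ => ¬ Cl χ a ρ) ⊆
      ((range (a * n)).filter (fun j => χ j ≠ χ (j + 1))).image (fun j => j / a) := by
    intro ρ hρ
    rw [Finset.mem_filter, Finset.mem_range] at hρ
    obtain ⟨hn, hc⟩ := hρ
    have : ¬ (∀ q, q + 1 < a → χ (a * ρ + q) = χ (a * ρ + q + 1)) := fun h =>
      hc (clean_of χ a ρ h)
    push Not at this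
    obtain ⟨q, hq, hne⟩ := this
    rw [Finset.mem_image]
    refine ⟨a * ρ + q, ?_, ?_⟩
    · rw [Finset.mem_filter, Finset.mem_range]
      refine ⟨?_, hne⟩
      calc a * ρ + q < a * ρ + a := by omega
        _ = a * (ρ + 1) := by ring
        _ ≤ a * n := Nat.mul_le_mul_left _ hn
    · show (a * ρ + q) / a = ρ
      rw [Nat.mul_add_div (by omega), Nat.div_eq_of_lt (by omega), Nat.add_zero]
  exact (Finset.card_le_card this).trans Finset.card_image_le

open Classical in
theorem mcon : MconStmt := by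
  intro S m₀ m Dc R χ hm hR hD hchg hmis hhalf
  have hm0 : 0 < m₀ := by omega
  have hDm : Dc < m₀ := by nlinarith
  set a := 2 * m * m₀ with ha
  have ha0 : 0 < a := by positivity
  have hN : ((range (2 * m₀)).filter (fun ρ => ¬ Cl χ a ρ)).card ≤ Dc := by
    refine (unclean_card χ a (2 * m₀)).trans ?_
    have : a * (2 * m₀) = 4 * m₀ ^ 2 * m := by rw [ha]; ring
    rw [this]
    exact hchg
  -- a clean column
  obtain ⟨ρ, hρ1, hρ2, hρc⟩ : ∃ ρ, m₀ ≤ ρ ∧ ρ < 2 * m₀ ∧ Cl χ a ρ := by
    by_contra hno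
    push Not at hno
    have : Finset.Ico m₀ (2 * m₀) ⊆ (range (2 * m₀)).filter (fun ρ => ¬ Cl χ a ρ) := by
      intro ρ hρ
      rw [Finset.mem_Ico] at hρ
      rw [Finset.mem_filter, Finset.mem_range]
      exact ⟨hρ.2, hno ρ hρ.1 hρ.2⟩
    have := Finset.card_le_card this
    rw [Nat.card_Ico] at this
    omega
  -- all clean rows have the value of this column
  have key : ∀ r, r < m₀ → Cl χ a r → χ (a * r) = χ (a * ρ) := by
    intro r hr hrc
    by_contra hne
    apply hmis
    -- the column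
    have hc : 2 * m₀ - 1 - ρ < m₀ := by omega
    let i : Fin m₀ := ⟨r, hr⟩
    let j : Fin m₀ := ⟨2 * m₀ - 1 - ρ, hc⟩
    have hj : m₀ - 1 - (j : ℕ) = ρ - m₀ := by
      show m₀ - 1 - (2 * m₀ - 1 - ρ) = ρ - m₀
      omega
    have g1 : (mseg S m₀ m)[2 * m₀ * r + 2 * (j : ℕ)]? = some (Seg.pay (i, j) false) := by
      rw [mseg, List.getElem?_append_left ?_]
      · exact mrow_get S m₀ m i j
      · rw [mrow_len]
        have h1 := j.2
        calc 2 * m₀ * r + 2 * (j : ℕ) < 2 * m₀ * r + 2 * m₀ := by omega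
          _ = 2 * m₀ * (r + 1) := by ring
          _ ≤ 2 * m₀ * m₀ := Nat.mul_le_mul_left _ hr
    have g2 : (mseg S m₀ m)[2 * m₀ * ρ + (2 * (m₀ - 1 - r) + 1)]? =
        some (Seg.pay (i, j) true) := by
      have e0 : 2 * m₀ * ρ = 2 * m₀ * m₀ + 2 * m₀ * (ρ - m₀) := by
        rw [← Nat.mul_add]
        congr 1
        omega
      rw [mseg, List.getElem?_append_right ?_]
      · rw [mrow_len]
        have := mcol_get S m₀ m i j
        rw [hj] at this
        have e1 : 2 * m₀ * ρ + (2 * (m₀ - 1 - r) + 1) - 2 * m₀ * m₀ =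
            2 * m₀ * (ρ - m₀) + (2 * (m₀ - 1 - (i : ℕ)) + 1) := by
          rw [e0]
          show _ = 2 * m₀ * (ρ - m₀) + (2 * (m₀ - 1 - r) + 1)
          omega
        rw [e1]
        exact this
      · rw [mrow_len, e0]
        omega
    have b1 : 2 * m₀ * r + 2 * (j : ℕ) ≤ 4 * m₀ * m₀ := by
      have h1 := j.2
      calc 2 * m₀ * r + 2 * (j : ℕ) ≤ 2 * m₀ * r + 2 * m₀ := by omega
        _ = 2 * m₀ * (r + 1) := by ring
        _ ≤ 2 * m₀ * m₀ := Nat.mul_le_mul_left _ hr
        _ ≤ 4 * m₀ * m₀ := by nlinarith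
    have b2 : 2 * m₀ * ρ + (2 * (m₀ - 1 - r) + 1) ≤ 4 * m₀ * m₀ := by
      calc 2 * m₀ * ρ + (2 * (m₀ - 1 - r) + 1) ≤ 2 * m₀ * ρ + 2 * m₀ := by omega
        _ = 2 * m₀ * (ρ + 1) := by ring
        _ ≤ 2 * m₀ * (2 * m₀) := Nat.mul_le_mul_left _ hρ2
        _ = 4 * m₀ * m₀ := by ring
    -- values on the two occurrences
    have v1 : ∀ k, start S m (mseg S m₀ m) (2 * m₀ * r + 2 * (j : ℕ)) ≤ k →
        k < start S m (mseg S m₀ m) (2 * m₀ * r + 2 * (j : ℕ)) + m → χ k = χ (a * r) := by
      intro k hk1 hk2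
      rw [mseg_start S m₀ m _ b1] at hk1 hk2
      have e : (2 * m₀ * r + 2 * (j : ℕ)) * m = a * r + 2 * (j : ℕ) * m := by rw [ha]; ring
      rw [e] at hk1 hk2
      have h3 : 2 * (j : ℕ) * m + m < a := by
        have h1 := j.2
        have : 2 * (j : ℕ) + 2 ≤ 2 * m₀ := by omega
        calc 2 * (j : ℕ) * m + m < 2 * (j : ℕ) * m + 2 * m := by omega
          _ = (2 * (j : ℕ) + 2) * m := by ring
          _ ≤ 2 * m₀ * m := Nat.mul_le_mul_right _ this
          _ = a := by rw [ha]; ring
      have h4 := hrc (k - a * r) (by omega)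
      rw [Nat.add_sub_cancel' (by omega)] at h4
      exact h4
    have v2 : ∀ k, start S m (mseg S m₀ m) (2 * m₀ * ρ + (2 * (m₀ - 1 - r) + 1)) ≤ k →
        k < start S m (mseg S m₀ m) (2 * m₀ * ρ + (2 * (m₀ - 1 - r) + 1)) + m →
        χ k = χ (a * ρ) := by
      intro k hk1 hk2
      rw [mseg_start S m₀ m _ b2] at hk1 hk2
      have e : (2 * m₀ * ρ + (2 * (m₀ - 1 - r) + 1)) * m =
          a * ρ + (2 * (m₀ - 1 - r) + 1) * m := by rw [ha]; ring
      rw [e] at hk1 hk2
      have h3 : (2 * (m₀ - 1 - r) + 1) * m + m ≤ a := by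
        have : 2 * (m₀ - 1 - r) + 2 ≤ 2 * m₀ := by omega
        calc (2 * (m₀ - 1 - r) + 1) * m + m = (2 * (m₀ - 1 - r) + 2) * m := by ring
          _ ≤ 2 * m₀ * m := Nat.mul_le_mul_right _ this
          _ = a := by rw [ha]; ring
      have h4 := hρc (k - a * ρ) (by omega)
      rw [Nat.add_sub_cancel' (by omega)] at h4
      exact h4
    cases hx : χ (a * r) with
    | true =>
      have hy : χ (a * ρ) = false := by
        rw [hx] at hne
        cases hh : χ (a * ρ) with
        | true => exact absurd hh.symm hne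
        | false => rfl
      exact ⟨(i, j), false, _, _, g1, g2, fun k h1 h2 => (v1 k h1 h2).trans hx,
        fun k h1 h2 => (v2 k h1 h2).trans hy⟩
    | false =>
      have hy : χ (a * ρ) = true := by
        rw [hx] at hne
        cases hh : χ (a * ρ) with
        | true => rfl
        | false => exact absurd hh.symm hne
      exact ⟨(i, j), true, _, _, g2, g1, fun k h1 h2 => (v2 k h1 h2).trans hy,
        fun k h1 h2 => (v1 k h1 h2).trans hx⟩
  -- the sum as a sum over the rows
  set T := ∑ j ∈ (range (4 * m₀ ^ 2 * m)).filter (fun j => χ j = true), mmu m₀ m j with hT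
  have hTr : T = ∑ r ∈ range m₀, ∑ q ∈ range a,
      (if χ (a * r + q) = true then mmu m₀ m (a * r + q) else 0) := by
    rw [hT, Finset.sum_filter]
    have e : 4 * m₀ ^ 2 * m = a * m₀ + a * m₀ := by rw [ha]; ring
    rw [e, Finset.sum_range_add]
    have h0 : ∑ x ∈ range (a * m₀), (if χ (a * m₀ + x) = true then
        mmu m₀ m (a * m₀ + x) else 0) = 0 := by
      apply Finset.sum_eq_zero
      intro x _
      have : mmu m₀ m (a * m₀ + x) = 0 := by
        unfold mmu
        rw [if_neg]
        intro hh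
        have : 2 * m * m₀ ^ 2 = a * m₀ := by rw [ha]; ring
        rw [this] at hh
        omega
      rw [this]
      simp
    rw [h0, add_zero]
    exact sum_blocks (fun j => if χ j = true then mmu m₀ m j else 0) a m₀
  have hNr : ((range m₀).filter (fun ρ => ¬ Cl χ a ρ)).card ≤ Dc := by
    refine (Finset.card_le_card ?_).trans hN
    apply Finset.filter_subset_filter
    intro x hx
    rw [Finset.mem_range] at hx ⊢
    omega
  have hm0R : (0 : ℝ) < m₀ := by exact_mod_cast hm0
  have hRR : (1 : ℝ) ≤ R := by exact_mod_cast hR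
  have hDR : 2 * (R : ℝ) * Dc < m₀ := by exact_mod_cast hD
  have rowle : ∀ r ∈ range m₀, ∑ q ∈ range a,
      (if χ (a * r + q) = true then mmu m₀ m (a * r + q) else 0) ≤ 1 / (m₀ : ℝ) := by
    intro r hr
    rw [← row_measure m₀ m hm r (Finset.mem_range.mp hr)]
    apply Finset.sum_le_sum
    intro q _
    split
    · exact le_rfl
    · exact mmu_nonneg _ _ _
  cases hv : χ (a * ρ) with
  | false =>
    -- clean rows contribute nothing
    have h0 : ∀ r ∈ range m₀, Cl χ a r → ∑ q ∈ range a,
        (if χ (a * r + q) = true then mmu m₀ m (a * r + q) else 0) = 0 := by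
      intro r hr hc
      apply Finset.sum_eq_zero
      intro q hq
      rw [hc q (Finset.mem_range.mp hq), key r (Finset.mem_range.mp hr) hc, hv]
      simp
    have hle : T ≤ Dc * (1 / (m₀ : ℝ)) := by
      rw [hTr, ← Finset.sum_filter_add_sum_filter_not (range m₀) (fun r => Cl χ a r)]
      have s1 : ∑ r ∈ (range m₀).filter (fun r => Cl χ a r), ∑ q ∈ range a,
          (if χ (a * r + q) = true then mmu m₀ m (a * r + q) else 0) = 0 := by
        apply Finset.sum_eq_zero
        intro r hr
        rw [Finset.mem_filter] at hr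
        exact h0 r hr.1 hr.2
      rw [s1, zero_add]
      have s2 : ∑ r ∈ (range m₀).filter (fun r => ¬ Cl χ a r), ∑ q ∈ range a,
          (if χ (a * r + q) = true then mmu m₀ m (a * r + q) else 0) ≤
          ((range m₀).filter (fun ρ => ¬ Cl χ a ρ)).card • (1 / (m₀ : ℝ)) := by
        apply Finset.sum_le_card_nsmul
        intro r hr
        exact rowle r (Finset.mem_filter.mp hr).1
      refine s2.trans ?_
      rw [nsmul_eq_mul]
      apply mul_le_mul_of_nonneg_right _ (by positivity)
      exact_mod_cast hNr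
    calc T * (2 * R) ≤ Dc * (1 / (m₀ : ℝ)) * (2 * R) :=
          mul_le_mul_of_nonneg_right hle (by positivity)
      _ = 2 * R * Dc / m₀ := by ring
      _ < 1 := by rw [div_lt_one hm0R]; exact hDR
  | true =>
    exfalso
    have h1 : ∀ r ∈ range m₀, Cl χ a r → ∑ q ∈ range a,
        (if χ (a * r + q) = true then mmu m₀ m (a * r + q) else 0) = 1 / (m₀ : ℝ) := by
      intro r hr hc
      rw [← row_measure m₀ m hm r (Finset.mem_range.mp hr)]
      apply Finset.sum_congr rfl
      intro q hq
      rw [hc q (Finset.mem_range.mp hq), key r (Finset.mem_range.mp hr) hc, hv, if_pos rfl]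
    have hge : ((m₀ : ℝ) - Dc) * (1 / (m₀ : ℝ)) ≤ T := by
      rw [hTr, ← Finset.sum_filter_add_sum_filter_not (range m₀) (fun r => Cl χ a r)]
      have s1 : ∑ r ∈ (range m₀).filter (fun r => Cl χ a r), ∑ q ∈ range a,
          (if χ (a * r + q) = true then mmu m₀ m (a * r + q) else 0) =
          ((range m₀).filter (fun r => Cl χ a r)).card * (1 / (m₀ : ℝ)) := by
        rw [← nsmul_eq_mul, ← Finset.sum_const]
        apply Finset.sum_congr rfl
        intro r hr
        rw [Finset.mem_filter] at hr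
        exact h1 r hr.1 hr.2
      have s2 : 0 ≤ ∑ r ∈ (range m₀).filter (fun r => ¬ Cl χ a r), ∑ q ∈ range a,
          (if χ (a * r + q) = true then mmu m₀ m (a * r + q) else 0) := by
        apply Finset.sum_nonneg
        intro r _
        apply Finset.sum_nonneg
        intro q _
        split
        · exact mmu_nonneg _ _ _
        · exact le_rfl
      rw [s1]
      have s3 : ((range m₀).filter (fun r => Cl χ a r)).card +
          ((range m₀).filter (fun r => ¬ Cl χ a r)).card = m₀ := by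
        have := Finset.card_filter_add_card_filter_not (s := range m₀) (fun r => Cl χ a r)
        rw [Finset.card_range] at this
        exact this
      have s4 : (m₀ : ℝ) - Dc ≤ ((range m₀).filter (fun r => Cl χ a r)).card := by
        have : m₀ ≤ ((range m₀).filter (fun r => Cl χ a r)).card + Dc := by omega
        have : (m₀ : ℝ) ≤ ((range m₀).filter (fun r => Cl χ a r)).card + Dc := by
          exact_mod_cast this
        linarith
      have := mul_le_mul_of_nonneg_right s4 (by positivity : (0 : ℝ) ≤ 1 / (m₀ : ℝ))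
      linarith
    have h2 : ((m₀ : ℝ) - Dc) * (1 / (m₀ : ℝ)) ≤ 1 / 2 := hge.trans hhalf
    have h3 : ((m₀ : ℝ) - Dc) ≤ m₀ / 2 := by
      have := mul_le_mul_of_nonneg_right h2 hm0R.le
      have e : ((m₀ : ℝ) - Dc) * (1 / (m₀ : ℝ)) * m₀ = m₀ - Dc := by
        field_simp
      rw [e] at this
      linarith
    have h4 : 2 * (Dc : ℝ) ≤ 2 * R * Dc := by
      have : (0 : ℝ) ≤ Dc := by positivity
      nlinarith
    linarith

end Pool.Agent.Idx.H90
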